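import Pool.Agent.Run7.h462.QA.Irr

/-!
# Prime values of the expected number for a positive proportion of the constant terms in very short ranges

Let `F` be ANY integer polynomial of degree `d ≥ 2` with positive leading coefficient and `η, ε > 0`. If
`N ^ (max (3 d / 4 - 1) (d - 2) + ε) ≤ A ≤ N ^ (d - 1)` and `N` is large, then for a positive proportion of the integers
`1 ≤ a ≤ A` the number of the primes `F(n) + a`, `n ≤ N`, is at least `1 - η` times the number predicted by
Bateman and Horn (with the constant replaced by the product over the primes `p ≤ z`, for all `z` between a power of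
`log N` and `N ^ (1/6)` at the same time, which is bounded from below). The range of the constant terms is so short that the
numbers `F(n) + a` are a very sparse set: for `d ≥ 4` and `A = N ^ (d - 2 + ε)` only `N ^ (d - 1 + ε)` of the integers up
to `N ^ d` are of this form.

Method. First moment: `p = F(n) + a` with `a ≤ A` means that the fractional part of `(p / l) ^ (1/d) - β` is in an interval of
length `A / (l d n ^ (d - 1))`; exponential sums over primes with the phases `s h p ^ (1/d)` on average over `h`: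
Vaughan's identity, the double large sieve (spacing of the points `h^d k`) for the bilinear sums, the second derivative test for the
linear sums. The sums `P` over `a` of the singular series are computed by the sieve; the upper bound sieve for a single `a` with
the truncated singular series as the density, and its second moment, then show that the excess cannot be carried by few `a`.
-/

set_option autoImplicit false

namespace Run7.h462.Kept.PositiveProportionEveryDegree

open Finset Filter Topology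
open Polynomial (X)
open scoped Polynomial

/-- the number of residues `x` modulo `p` such that `p` divides `F(x) + a` -/
def rho (F : ℤ[X]) (a : ℤ) (p : ℕ) : ℕ := #((range p).filter (fun x : ℕ => (p : ℤ) ∣ F.eval (x : ℤ) + a))

/-- the product of `(1 - rho(p) / p) / (1 - 1 / p)` over the primes `p ≤ z` -/
noncomputable def S (F : ℤ[X]) (a : ℤ) (z : ℕ) : ℝ :=
  ∏ p ∈ (Icc 1 z).filter Nat.Prime, (1 - (rho F a p : ℝ) / p) / (1 - 1 / (p : ℝ))

/-- the number of integers `1 ≤ n ≤ N` such that `F(n) + a` is a prime -/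
noncomputable def P (F : ℤ[X]) (a : ℤ) (N : ℕ) : ℕ := #((Icc 1 N).filter (fun n : ℕ => Nat.Prime (F.eval (n : ℤ) + a).toNat))

lemma S_eq (F : ℤ[X]) (a : ℤ) (z : ℕ) : S F a z = Pool.Agent.TH204.WR.hh F a z := by
  unfold S Pool.Agent.TH204.WR.hh Pool.Agent.H373R2.T7.Vz Pool.Agent.H373R2.T7.pz
  rw [prod_div_distrib, div_eq_mul_inv, mul_comm]
  rfl

/-- the conclusion for one constant term -/
def Good (F : ℤ[X]) (η c : ℝ) (B N a : ℕ) : Prop :=
  Irreducible (F + Polynomial.C (a : ℤ)) ∧
  ∀ z : ℕ, Real.log N ^ B ≤ z → z ^ 6 ≤ N →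
    c ≤ S F a z ∧ (1 - η) * (S F a z * (N / (F.natDegree * Real.log N))) ≤ P F a N

open Classical in
theorem result (F : ℤ[X]) (hd : 2 ≤ F.natDegree) (hl : 0 < F.leadingCoeff) (η : ℝ) (hη : 0 < η) :
    ∃ (B : ℕ) (c : ℝ), 0 < c ∧ ∀ ε : ℝ, 0 < ε → ∃ N₀ : ℕ, ∀ N : ℕ, N₀ ≤ N → ∀ A : ℕ,
      (N : ℝ) ^ (max (3 / 4 * (F.natDegree : ℝ) - 1) ((F.natDegree : ℝ) - 2) + ε) ≤ A →
      (A : ℝ) ≤ (N : ℝ) ^ (F.natDegree - 1) →
      c * A ≤ #((Icc 1 A).filter (fun a : ℕ => Good F η c B N a)) := by
  obtain ⟨B, c, hc, h⟩ := Run7.h462.QA.coreG F hd hl (min η (1 / 2)) (lt_min hη (by norm_num)) (min_le_right _ _)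
  refine ⟨B, c, hc, fun ε hε => ?_⟩
  obtain ⟨N₀, h⟩ := h ε hε
  obtain ⟨N₁, h1⟩ := eventually_atTop.1 (Run7.h757.BP.Fin.rpow_ge_log (1 / 6) (by norm_num) B 2 (by norm_num))
  obtain ⟨N₂, h2⟩ := eventually_atTop.1 (Run7.h757.BP.Fin.rpow_ge_log 1 (by norm_num) 1
    (4 * F.natDegree * (F.natDegree + 1) / c) (by positivity))
  refine ⟨N₀ + N₁ + N₂ + 3, fun N hN A hA1 hA2 => ?_⟩
  have h1 := h1 N (by omega)
  have h2 := h2 N (by omega)
  have hdR : (2 : ℝ) ≤ F.natDegree := by exact_mod_cast hd
  have hN3 : (3 : ℝ) ≤ N := by exact_mod_cast (by omega : 3 ≤ N)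
  have hlog : 1 ≤ Real.log N := by
    rw [Real.le_log_iff_exp_le (by linarith)]
    linarith [Real.exp_one_lt_d9]
  rw [← Run7.h462.QA.lam_range _ hd] at hA1
  refine (h N (by omega) A hA1 hA2).trans ?_
  norm_cast
  apply card_le_card
  intro a ha
  rw [mem_filter] at ha ⊢
  have hgood : ∀ z : ℕ, Real.log N ^ B ≤ z → z ^ 6 ≤ N →
    c ≤ S F a z ∧ (1 - min η (1 / 2)) * (S F a z * (N / (F.natDegree * Real.log N))) ≤ P F a N := by
    intro z hz1 hz2
    rw [S_eq]
    exact ha.2 z hz1 hz2
  refine ⟨ha.1, ?_, fun z hz1 hz2 => ?_⟩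
  · -- irreducibility
    have hdeg : (F + Polynomial.C (a : ℤ)).natDegree = F.natDegree := Polynomial.natDegree_add_C
    apply Run7.h462.QA.irr _ (by rw [hdeg]; omega) (Icc 1 N)
    rw [hdeg]
    obtain ⟨z, hz⟩ : ∃ z : ℕ, z = ⌈Real.log N ^ B⌉₊ := ⟨_, rfl⟩
    have hz1 : Real.log N ^ B ≤ z := by rw [hz]; exact Nat.le_ceil _
    have hB1 : 1 ≤ Real.log N ^ B := one_le_pow₀ hlog
    have hz2 : (z : ℝ) ≤ (N : ℝ) ^ (1 / 6 : ℝ) := by
      have h3 : (z : ℝ) < Real.log N ^ B + 1 := by rw [hz]; exact Nat.ceil_lt_add_one (by positivity)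
      linarith
    have hz3 : z ^ 6 ≤ N := by
      have h3 : (z : ℝ) ^ 6 ≤ N := by
        calc (z : ℝ) ^ 6 ≤ ((N : ℝ) ^ (1 / 6 : ℝ)) ^ 6 := by gcongr
          _ = (N : ℝ) := by
              rw [← Real.rpow_natCast, ← Real.rpow_mul (by linarith)]
              norm_num
      exact_mod_cast h3
    obtain ⟨h3, h4⟩ := hgood z hz1 hz3
    have h5 : (2 * F.natDegree : ℝ) < P F a N := by
      refine lt_of_lt_of_le ?_ h4
      have h6 : 1 / 2 ≤ 1 - min η (1 / 2) := by linarith [min_le_right η (1 / 2)]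
      have h7 : (0 : ℝ) < N / (F.natDegree * Real.log N) := by positivity
      have h8 : 1 / 2 * (c * (N / (F.natDegree * Real.log N))) ≤
          (1 - min η (1 / 2)) * (S F a z * (N / (F.natDegree * Real.log N))) := by gcongr
      refine lt_of_lt_of_le ?_ h8
      rw [Real.rpow_one, pow_one, div_mul_eq_mul_div, div_le_iff₀ hc] at h2
      have h9 : 1 / 2 * (c * (N / (F.natDegree * Real.log N))) = (N * c) / (2 * (F.natDegree * Real.log N)) := by
        field_simp
      rw [h9, lt_div_iff₀ (by positivity)]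
      refine lt_of_lt_of_le ?_ h2
      have h10 : 0 < (F.natDegree : ℝ) * Real.log N := by positivity
      nlinarith
    have h6 : 2 * F.natDegree < P F a N := by exact_mod_cast h5
    refine lt_of_lt_of_le h6 (le_of_eq ?_)
    unfold P
    congr 1
    apply filter_congr
    intro n _
    rw [Polynomial.eval_add, Polynomial.eval_C]
  · obtain ⟨h1, h2⟩ := hgood z hz1 hz2
    refine ⟨h1, le_trans ?_ h2⟩
    apply mul_le_mul_of_nonneg_right
    · linarith [min_le_left η (1 / 2)]
    · have h4 : 0 ≤ S F a z := hc.le.trans h1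
      positivity

end Run7.h462.Kept.PositiveProportionEveryDegree
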